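import Mathlib

/-!
# MP_48c274_ag: generic lex initial ideals with `n - s ≤ 1` need not be lexsegment

Let `f_1, f_2` be generic quadrics in `n ≥ 4` variables and let the other forms have degrees at
least `4` (at most one of them `4` when `n = 4`).  The resultant of `f_1` and `f_2` with respect
to `x_1` is a nonzero quartic form of the ideal which does not contain `x_1`.  If the initial ideal
were lexsegment, it would therefore contain all monomials of degree `4` divisible by `x_1` and one
more; but the degree `4` part of the ideal has dimension at most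
`2 (n+1 choose 2) - 1 + #{i : d_i = 4} ≤ (n+2 choose 3)`, by the Koszul relation.
-/

set_option autoImplicit false

namespace Pool.Agent.Results.MP_48c274_ag.TwoQuadrics

open MvPolynomial

/-- The lexicographic order of exponent vectors with `x_0 ≻ x_1 ≻ ⋯`: `LexLT u v` says
`x^u ≺ x^v`. -/
def LexLT {n : ℕ} (u v : Fin n →₀ ℕ) : Prop := ∃ i, (∀ j < i, u j = v j) ∧ u i < v i

/-- `x^m` is the initial (i.e. lexicographically largest) monomial of `f`. -/
def IsInitial {k : Type*} [Field k] {n : ℕ} (f : MvPolynomial (Fin n) k) (m : Fin n →₀ ℕ) :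
    Prop :=
  m ∈ f.support ∧ ∀ u ∈ f.support, u = m ∨ LexLT u m

/-- The initial ideal of `I` for the lexicographic order: the ideal generated by the initial
monomials of the elements of `I`. -/
noncomputable def initialIdeal {k : Type*} [Field k] {n : ℕ}
    (I : Ideal (MvPolynomial (Fin n) k)) : Ideal (MvPolynomial (Fin n) k) :=
  Ideal.span ((fun m => monomial m (1 : k)) '' {m | ∃ f ∈ I, IsInitial f m})

/-- A (monomial) ideal is lexsegment if with each monomial it contains all lexicographically
larger monomials of the same degree. -/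
def IsLexsegment {k : Type*} [Field k] {n : ℕ} (L : Ideal (MvPolynomial (Fin n) k)) : Prop :=
  ∀ u v : Fin n →₀ ℕ, u.degree = v.degree → monomial u (1 : k) ∈ L → LexLT u v →
    monomial v (1 : k) ∈ L

/-- The coefficients of a tuple of polynomials. -/
noncomputable def coeffs {k : Type*} [Field k] {n s : ℕ} (f : Fin s → MvPolynomial (Fin n) k) :
    Fin s × (Fin n →₀ ℕ) → k :=
  fun x => coeff x.2 (f x.1)

/-- The property `Q` holds for generic forms `f_1, …, f_s` of degrees `d_1, …, d_s`: it holds
whenever `P(coefficients of f) ≠ 0`, where `P` is a polynomial in the coefficients such that the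
Zariski open set `P ≠ 0` of the space of all `s`-tuples of forms of these degrees is not empty. -/
def Generically {k : Type*} [Field k] {n s : ℕ} (d : Fin s → ℕ)
    (Q : (Fin s → MvPolynomial (Fin n) k) → Prop) : Prop :=
  ∃ P : MvPolynomial (Fin s × (Fin n →₀ ℕ)) k,
    (∃ g : Fin s → MvPolynomial (Fin n) k,
      (∀ i, (g i).IsHomogeneous (d i)) ∧ eval (coeffs g) P ≠ 0) ∧
    ∀ f : Fin s → MvPolynomial (Fin n) k,
      (∀ i, (f i).IsHomogeneous (d i)) → eval (coeffs f) P ≠ 0 → Q f

section lex

variable {n : ℕ}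

lemma lexLT_iff (u v : Fin n →₀ ℕ) : LexLT u v ↔ toLex u < toLex v := by
  rw [Finsupp.Lex.lt_iff]
  rfl

lemma LexLT.irrefl (u : Fin n →₀ ℕ) : ¬ LexLT u u := by
  rw [lexLT_iff]; exact lt_irrefl _

end lex

section initial

variable {k : Type*} [Field k] {n : ℕ}

lemma isInitial_monomial_mul {f : MvPolynomial (Fin n) k} {m : Fin n →₀ ℕ}
    (h : IsInitial f m) (a : Fin n →₀ ℕ) : IsInitial (monomial a 1 * f) (a + m) := by
  constructor
  · rw [mem_support_iff, coeff_monomial_mul, one_mul]
    exact mem_support_iff.1 h.1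
  · intro u hu
    rw [mem_support_iff, coeff_monomial_mul'] at hu
    split_ifs at hu with hau
    · rw [one_mul] at hu
      rcases h.2 _ (mem_support_iff.2 hu) with h1 | h1
      · left
        rw [← h1, add_tsub_cancel_of_le hau]
      · right
        obtain ⟨i, hi, hlt⟩ := h1
        refine ⟨i, fun j hj => ?_, ?_⟩
        · have h2 := hi j hj
          have h3 : a j ≤ u j := hau j
          simp only [Finsupp.coe_tsub, Pi.sub_apply, Finsupp.coe_add, Pi.add_apply] at h2 ⊢
          omega
        · have h3 : a i ≤ u i := hau i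
          simp only [Finsupp.coe_tsub, Pi.sub_apply, Finsupp.coe_add, Pi.add_apply] at hlt ⊢
          omega
    · exact absurd rfl hu

lemma mem_initialIdeal {I : Ideal (MvPolynomial (Fin n) k)} {u : Fin n →₀ ℕ}
    (h : monomial u (1 : k) ∈ initialIdeal I) : ∃ f ∈ I, IsInitial f u := by
  rw [initialIdeal, mem_ideal_span_monomial_image] at h
  obtain ⟨m, ⟨f, hf, hm⟩, hle⟩ := h u (by
    rw [mem_support_iff, coeff_monomial, if_pos rfl]; exact one_ne_zero)
  refine ⟨monomial (u - m) 1 * f, I.mul_mem_left _ hf, ?_⟩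
  have := isInitial_monomial_mul hm (u - m)
  rwa [tsub_add_cancel_of_le hle] at this

lemma isInitial_component {f : MvPolynomial (Fin n) k} {u : Fin n →₀ ℕ} {D : ℕ}
    (h : IsInitial f u) (hu : u.degree = D) : IsInitial (homogeneousComponent D f) u := by
  constructor
  · rw [support_homogeneousComponent, Finset.mem_filter]
    exact ⟨h.1, hu⟩
  · intro v hv
    rw [support_homogeneousComponent, Finset.mem_filter] at hv
    exact h.2 v hv.1

lemma exists_isInitial {f : MvPolynomial (Fin n) k} (hf : f ≠ 0) : ∃ m, IsInitial f m := by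
  have hne : f.support.Nonempty := by
    rw [Finset.nonempty_iff_ne_empty, Ne, support_eq_empty]; exact hf
  obtain ⟨m, hm, hmax⟩ := f.support.exists_max_image (fun u => toLex u) hne
  refine ⟨m, hm, fun u hu => ?_⟩
  rcases (hmax u hu).lt_or_eq with h | h
  · right; exact (lexLT_iff _ _).2 h
  · left; exact toLex.injective h

/-- Polynomials with distinct initial monomials are linearly independent. -/
lemma linearIndependent_initial (X : Finset (Fin n →₀ ℕ)) (g : X → MvPolynomial (Fin n) k)
    (hg : ∀ u : X, IsInitial (g u) u) : LinearIndependent k g := by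
  classical
  rw [Fintype.linearIndependent_iff]
  intro c hc
  by_contra hcon
  push Not at hcon
  obtain ⟨i0, hi0⟩ := hcon
  obtain ⟨m, hm, hmax⟩ := (Finset.univ.filter (fun u : X => c u ≠ 0)).exists_max_image
    (fun u => toLex (u : Fin n →₀ ℕ)) ⟨i0, by simpa using hi0⟩
  have hcm : c m ≠ 0 := by simpa using hm
  have h1 : coeff (m : Fin n →₀ ℕ) (∑ i, c i • g i) = c m * coeff (m : Fin n →₀ ℕ) (g m) := by
    rw [coeff_sum, Finset.sum_eq_single m]
    · rw [coeff_smul, smul_eq_mul]
    · intro b _ hb
      rw [coeff_smul, smul_eq_mul]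
      by_cases hcb : c b = 0
      · rw [hcb, zero_mul]
      · have hle := hmax b (by simpa using hcb)
        have : coeff (m : Fin n →₀ ℕ) (g b) = 0 := by
          by_contra hne
          rcases (hg b).2 _ (mem_support_iff.2 hne) with h | h
          · exact hb (Subtype.ext h.symm)
          · exact absurd ((lexLT_iff _ _).1 h) (not_lt.2 hle)
        rw [this, mul_zero]
    · intro h; exact absurd (Finset.mem_univ _) h
  rw [hc, coeff_zero] at h1
  exact (mul_ne_zero hcm (mem_support_iff.1 (hg m).1)) h1.symm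

end initial

section span

variable {k : Type*} [Field k] {n : ℕ}

/-- The exponents of degree `D`. -/
noncomputable def expos (n D : ℕ) : Finset (Fin n →₀ ℕ) := Finset.finsuppAntidiag Finset.univ D

lemma mem_expos {D : ℕ} {m : Fin n →₀ ℕ} : m ∈ expos n D ↔ m.degree = D := by
  rw [expos, Finset.mem_finsuppAntidiag, Finsupp.degree_eq_sum]
  simp

lemma card_expos (D : ℕ) : (expos n D).card = (n + D - 1).choose D := by
  rw [expos, Finset.card_finsuppAntidiag_nat_eq_choose]
  simp

/-- In degree `D` the ideal generated by forms is spanned by the products with monomials. -/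
lemma component_mem_span {s : ℕ} {d : Fin s → ℕ} {f : Fin s → MvPolynomial (Fin n) k}
    (hf : ∀ i, (f i).IsHomogeneous (d i)) (D : ℕ) {g : MvPolynomial (Fin n) k}
    (hg : g ∈ Ideal.span (Set.range f)) :
    homogeneousComponent D g ∈ Submodule.span k
      {h | ∃ i m, d i + Finsupp.degree m = D ∧ h = monomial m (1 : k) * f i} := by
  obtain ⟨c, rfl⟩ := (Ideal.mem_span_range_iff_exists_fun).1 hg
  rw [map_sum]
  refine Submodule.sum_mem _ fun i _ => ?_
  induction c i using MvPolynomial.induction_on' with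
  | monomial m a =>
    have h1 : (monomial m a * f i : MvPolynomial (Fin n) k) = a • (monomial m (1 : k) * f i) := by
      rw [← smul_mul_assoc, smul_monomial, smul_eq_mul, mul_one]
    rw [h1, map_smul]
    refine Submodule.smul_mem _ _ ?_
    have h2 : (monomial m (1 : k) * f i).IsHomogeneous (m.degree + d i) :=
      (isHomogeneous_monomial _ rfl).mul (hf i)
    rw [homogeneousComponent_of_mem h2]
    split_ifs with h
    · exact Submodule.subset_span ⟨i, m, by omega, rfl⟩
    · exact Submodule.zero_mem _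
  | add p q hp hq =>
    rw [add_mul, map_add]
    exact Submodule.add_mem _ hp hq

lemma degree_of_coeff {D : ℕ} {f : MvPolynomial (Fin n) k} (hf : f.IsHomogeneous D)
    {m : Fin n →₀ ℕ} (h : coeff m f ≠ 0) : m.degree = D := by
  have := hf h
  rw [Finsupp.degree_eq_weight_one]
  exact this

/-- A form is the sum of its terms. -/
lemma eq_sum_expos {D : ℕ} {f : MvPolynomial (Fin n) k} (hf : f.IsHomogeneous D) :
    f = ∑ m ∈ expos n D, monomial m (coeff m f) := by
  classical
  ext u
  rw [coeff_sum]
  simp_rw [coeff_monomial]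
  rw [Finset.sum_ite_eq' (expos n D) u (fun m => coeff m f)]
  split_ifs with h
  · rfl
  · by_contra hne
    exact h (mem_expos.2 (degree_of_coeff hf hne))

open Classical in
/-- The finite spanning set in degree `4`. -/
noncomputable def gens {s : ℕ} (d : Fin (s + 2) → ℕ) (f : Fin (s + 2) → MvPolynomial (Fin n) k)
    (m0 : Fin n →₀ ℕ) : Finset (MvPolynomial (Fin n) k) :=
  ((expos n 2).image (fun m => monomial m (1 : k) * f 0) ∪
    ((expos n 2).erase m0).image (fun m => monomial m (1 : k) * f 1)) ∪
    (Finset.univ.filter (fun i => d i = 4)).image f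

open Classical in
lemma span_le_gens {s : ℕ} {d : Fin (s + 2) → ℕ} {f : Fin (s + 2) → MvPolynomial (Fin n) k}
    (hf : ∀ i, (f i).IsHomogeneous (d i)) (h0 : d 0 = 2) (h1 : d 1 = 2)
    (h4 : ∀ i : Fin (s + 2), 2 ≤ (i : ℕ) → 4 ≤ d i) {m0 : Fin n →₀ ℕ}
    (hm0 : coeff m0 (f 0) ≠ 0) :
    Submodule.span k {h | ∃ i m, d i + Finsupp.degree m = 4 ∧ h = monomial m (1 : k) * f i} ≤
      Submodule.span k (gens d f m0 : Set (MvPolynomial (Fin n) k)) := by
  set W := Submodule.span k (gens d f m0 : Set (MvPolynomial (Fin n) k)) with hW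
  have hA : ∀ m ∈ expos n 2, monomial m (1 : k) * f 0 ∈ W := fun m hm => by
    apply Submodule.subset_span
    simp only [gens, Finset.coe_union, Finset.coe_image]
    exact Or.inl (Or.inl ⟨m, hm, rfl⟩)
  have hB : ∀ m ∈ (expos n 2).erase m0, monomial m (1 : k) * f 1 ∈ W := fun m hm => by
    apply Submodule.subset_span
    simp only [gens, Finset.coe_union, Finset.coe_image]
    exact Or.inl (Or.inr ⟨m, hm, rfl⟩)
  have hC : ∀ i, d i = 4 → f i ∈ W := fun i hi => by
    apply Submodule.subset_span
    simp only [gens, Finset.coe_union, Finset.coe_image]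
    exact Or.inr ⟨i, by simpa using hi, rfl⟩
  have hf0 : (f 0).IsHomogeneous 2 := by have h := hf 0; rwa [h0] at h
  have hf1 : (f 1).IsHomogeneous 2 := by have h := hf 1; rwa [h1] at h
  have hm0' : m0 ∈ expos n 2 := mem_expos.2 (degree_of_coeff hf0 hm0)
  have hD : monomial m0 (1 : k) * f 1 ∈ W := by
    have e1 : f 0 * f 1 = ∑ m ∈ expos n 2, coeff m (f 0) • (monomial m (1 : k) * f 1) := by
      conv_lhs => rw [eq_sum_expos hf0, Finset.sum_mul]
      refine Finset.sum_congr rfl fun m _ => ?_
      rw [← smul_mul_assoc, smul_monomial, smul_eq_mul, mul_one]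
    have e2 : f 0 * f 1 = ∑ m ∈ expos n 2, coeff m (f 1) • (monomial m (1 : k) * f 0) := by
      conv_lhs => rw [mul_comm, eq_sum_expos hf1, Finset.sum_mul]
      refine Finset.sum_congr rfl fun m _ => ?_
      rw [← smul_mul_assoc, smul_monomial, smul_eq_mul, mul_one]
    rw [← Finset.add_sum_erase _ _ hm0'] at e1
    have e3 : coeff m0 (f 0) • (monomial m0 (1 : k) * f 1) ∈ W := by
      have e4 : coeff m0 (f 0) • (monomial m0 (1 : k) * f 1) = f 0 * f 1 -
          ∑ m ∈ (expos n 2).erase m0, coeff m (f 0) • (monomial m (1 : k) * f 1) := by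
        rw [e1]; abel
      rw [e4]
      refine Submodule.sub_mem _ ?_ (Submodule.sum_mem _ fun m hm =>
        Submodule.smul_mem _ _ (hB m hm))
      rw [e2]
      exact Submodule.sum_mem _ fun m hm => Submodule.smul_mem _ _ (hA m hm)
    have e5 := Submodule.smul_mem W (coeff m0 (f 0))⁻¹ e3
    rwa [smul_smul, inv_mul_cancel₀ hm0, one_smul] at e5
  rw [Submodule.span_le]
  rintro _ ⟨i, m, him, rfl⟩
  rcases Nat.lt_or_ge (i : ℕ) 2 with hi | hi
  · have hi' : i = 0 ∨ i = 1 := by
      rcases Nat.lt_or_ge (i : ℕ) 1 with h | h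
      · left; ext; simpa using h
      · right; ext; simp; omega
    rcases hi' with rfl | rfl
    · exact hA m (mem_expos.2 (by omega))
    · by_cases hmm : m = m0
      · rw [hmm]; exact hD
      · exact hB m (Finset.mem_erase.2 ⟨hmm, mem_expos.2 (by omega)⟩)
  · have h5 := h4 i hi
    have h6 : Finsupp.degree m = 0 := by omega
    have h7 : m = 0 := by
      rwa [Finsupp.degree_eq_zero_iff] at h6
    subst h7
    have h8 : d i = 4 := by omega
    have : monomial (0 : Fin n →₀ ℕ) (1 : k) * f i = f i := by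
      rw [← C_apply, C_1, one_mul]
    show monomial (0 : Fin n →₀ ℕ) (1 : k) * f i ∈ W
    rw [this]
    exact hC i h8

open Classical in
lemma card_gens_le {s : ℕ} (d : Fin (s + 2) → ℕ) (f : Fin (s + 2) → MvPolynomial (Fin n) k)
    {m0 : Fin n →₀ ℕ} (hm0 : m0 ∈ expos n 2) :
    (gens d f m0).card + 1 ≤ 2 * (n + 1).choose 2 +
      (Finset.univ.filter (fun i => d i = 4)).card := by
  have h1 := Finset.card_union_le ((expos n 2).image (fun m => monomial m (1 : k) * f 0) ∪
    ((expos n 2).erase m0).image (fun m => monomial m (1 : k) * f 1))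
    ((Finset.univ.filter (fun i => d i = 4)).image f)
  have h2 := Finset.card_union_le ((expos n 2).image (fun m => monomial m (1 : k) * f 0))
    (((expos n 2).erase m0).image (fun m => monomial m (1 : k) * f 1))
  have h3 : ((expos n 2).image (fun m => monomial m (1 : k) * f 0)).card ≤ (expos n 2).card :=
    Finset.card_image_le
  have h4 : (((expos n 2).erase m0).image (fun m => monomial m (1 : k) * f 1)).card ≤
    ((expos n 2).erase m0).card := Finset.card_image_le
  have h5 : ((Finset.univ.filter (fun i => d i = 4)).image f).card ≤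
    (Finset.univ.filter (fun i => d i = 4)).card := Finset.card_image_le
  have h6 := Finset.card_erase_add_one hm0
  have h7 : (expos n 2).card = (n + 1).choose 2 := by rw [card_expos]; rfl
  rw [gens]
  omega

/-- Counting initial monomials. -/
lemma card_le_of_initial {s : ℕ} {d : Fin (s + 2) → ℕ}
    {f : Fin (s + 2) → MvPolynomial (Fin n) k}
    (hf : ∀ i, (f i).IsHomogeneous (d i)) (h0 : d 0 = 2) (h1 : d 1 = 2)
    (h4 : ∀ i : Fin (s + 2), 2 ≤ (i : ℕ) → 4 ≤ d i) (hf0 : f 0 ≠ 0)
    (X : Finset (Fin n →₀ ℕ)) (hX : ∀ u ∈ X, u.degree = 4 ∧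
      ∃ g ∈ Ideal.span (Set.range f), IsInitial g u) :
    X.card + 1 ≤ 2 * (n + 1).choose 2 + (Finset.univ.filter (fun i => d i = 4)).card := by
  classical
  have h02 : (f 0).IsHomogeneous 2 := by have h := hf 0; rwa [h0] at h
  obtain ⟨m0, hm0⟩ := ne_zero_iff.1 hf0
  have hm0' : m0 ∈ expos n 2 := mem_expos.2 (degree_of_coeff h02 hm0)
  choose! g hg hgi using fun u hu => (hX u hu).2
  set G : X → MvPolynomial (Fin n) k := fun u => homogeneousComponent 4 (g u) with hG
  have hlin : LinearIndependent k G := linearIndependent_initial X G fun u =>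
    isInitial_component (hgi u u.2) (hX u u.2).1
  have hmem : ∀ u, G u ∈ Submodule.span k (gens d f m0 : Set (MvPolynomial (Fin n) k)) :=
    fun u => span_le_gens hf h0 h1 h4 hm0 (component_mem_span hf 4 (hg u u.2))
  have hle : Submodule.span k (Set.range G) ≤
      Submodule.span k (gens d f m0 : Set (MvPolynomial (Fin n) k)) := by
    rw [Submodule.span_le]
    rintro _ ⟨u, rfl⟩
    exact hmem u
  have h5 : Module.finrank k (Submodule.span k (Set.range G)) = X.card := by
    rw [finrank_span_eq_card hlin, Fintype.card_coe]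
  have h6 := Submodule.finrank_mono hle
  have h7 := finrank_span_finset_le_card (R := k) (gens d f m0)
  have h8 := card_gens_le d f hm0'
  have h9 : Module.finrank k (Submodule.span k (gens d f m0 : Set (MvPolynomial (Fin n) k))) ≤
    (gens d f m0).card := h7
  omega

end span

section resultant

variable {k : Type*} [Field k]

lemma finSuccEquiv_rename_succ {m : ℕ} (p : MvPolynomial (Fin m) k) :
    finSuccEquiv k m (rename Fin.succ p) = Polynomial.C p := by
  induction p using MvPolynomial.induction_on with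
  | C a =>
    rw [rename_C]
    have h1 := congrArg (fun F => F a) (finSuccEquiv_comp_C_eq_C (R := k) m)
    have h2 : (finSuccEquiv k m).symm (Polynomial.C (C a)) = C a := by simpa using h1
    rw [← h2, AlgEquiv.apply_symm_apply]
  | add p q hp hq => rw [map_add, map_add, hp, hq, map_add]
  | mul_X p i hp => rw [map_mul, map_mul, hp, rename_X, finSuccEquiv_X_succ, map_mul]

lemma decomp {m : ℕ} {f : MvPolynomial (Fin (m + 1)) k} (hf : f.IsHomogeneous 2) :
    f = rename Fin.succ ((finSuccEquiv k m f).coeff 2) * X 0 ^ 2 +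
      rename Fin.succ ((finSuccEquiv k m f).coeff 1) * X 0 +
      rename Fin.succ ((finSuccEquiv k m f).coeff 0) := by
  apply (finSuccEquiv k m).injective
  rw [map_add, map_add, map_mul, map_mul, map_pow, finSuccEquiv_X_zero, finSuccEquiv_rename_succ,
    finSuccEquiv_rename_succ, finSuccEquiv_rename_succ]
  have hdeg : (finSuccEquiv k m f).natDegree < 3 := by
    rw [natDegree_finSuccEquiv]
    have h1 := degreeOf_le_totalDegree f 0
    have h2 := hf.totalDegree_le
    omega
  conv_lhs => rw [Polynomial.as_sum_range' _ 3 hdeg]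
  simp only [Finset.sum_range_succ, Finset.sum_range_zero, ← Polynomial.C_mul_X_pow_eq_monomial]
  ring

lemma eval_single {m j : ℕ} {c : MvPolynomial (Fin (m + 1)) k} (hc : c.IsHomogeneous j) :
    eval (Pi.single 0 1) c = coeff (Finsupp.single 0 j) c := by
  classical
  rw [eval_eq', Finset.sum_eq_single (Finsupp.single 0 j)]
  · rw [Finset.prod_eq_one, mul_one]
    intro i _
    by_cases hi : i = 0
    · subst hi; simp
    · rw [Finsupp.single_apply, if_neg (Ne.symm hi), pow_zero]
  · intro b hb hne
    have hdeg := degree_of_coeff hc (mem_support_iff.1 hb)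
    have : ∃ i, i ≠ 0 ∧ b i ≠ 0 := by
      by_contra hcon
      push Not at hcon
      apply hne
      ext i
      by_cases hi : i = 0
      · subst hi
        rw [Finsupp.single_eq_same, ← hdeg, Finsupp.degree_eq_sum, Fin.sum_univ_succ]
        simp [hcon]
      · rw [hcon i hi, Finsupp.single_apply, if_neg (Ne.symm hi)]
    obtain ⟨i, hi, hbi⟩ := this
    rw [Finset.prod_eq_zero (Finset.mem_univ i), mul_zero]
    rw [Pi.single_apply, if_neg hi, zero_pow hbi]
  · intro h
    rw [notMem_support_iff.1 h, zero_mul]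

/-- The polynomial in the coefficients of `f_1, f_2` which is to be nonzero: the coefficient of
`x_2 ^ 4` in the resultant of `f_1` and `f_2` with respect to `x_1`. -/
noncomputable def resP (k : Type*) [Field k] (m s : ℕ) :
    MvPolynomial (Fin (s + 2) × (Fin (m + 2) →₀ ℕ)) k :=
  (X (0, Finsupp.single 0 2) * X (1, Finsupp.single 1 2) -
      X (1, Finsupp.single 0 2) * X (0, Finsupp.single 1 2)) ^ 2 -
    (X (0, Finsupp.single 0 2) * X (1, Finsupp.single 0 1 + Finsupp.single 1 1) -
      X (1, Finsupp.single 0 2) * X (0, Finsupp.single 0 1 + Finsupp.single 1 1)) *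
    (X (0, Finsupp.single 0 1 + Finsupp.single 1 1) * X (1, Finsupp.single 1 2) -
      X (1, Finsupp.single 0 1 + Finsupp.single 1 1) * X (0, Finsupp.single 1 2))

lemma exists_resultant {m s : ℕ} {f : Fin (s + 2) → MvPolynomial (Fin (m + 2)) k}
    (h0 : (f 0).IsHomogeneous 2) (h1 : (f 1).IsHomogeneous 2)
    (hP : eval (coeffs f) (resP k m s) ≠ 0) :
    ∃ R ∈ Ideal.span (Set.range f), R ≠ 0 ∧ R.IsHomogeneous 4 ∧
      ∀ u ∈ R.support, u 0 = 0 := by
  classical
  set A := (finSuccEquiv k (m + 1) (f 0)).coeff 2 with hA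
  set B := (finSuccEquiv k (m + 1) (f 0)).coeff 1 with hB
  set C' := (finSuccEquiv k (m + 1) (f 0)).coeff 0 with hC
  set A1 := (finSuccEquiv k (m + 1) (f 1)).coeff 2 with hA1
  set B1 := (finSuccEquiv k (m + 1) (f 1)).coeff 1 with hB1
  set C1 := (finSuccEquiv k (m + 1) (f 1)).coeff 0 with hC1
  have dA : A.IsHomogeneous 0 := h0.finSuccEquiv_coeff_isHomogeneous 2 0 rfl
  have dB : B.IsHomogeneous 1 := h0.finSuccEquiv_coeff_isHomogeneous 1 1 rfl
  have dC : C'.IsHomogeneous 2 := h0.finSuccEquiv_coeff_isHomogeneous 0 2 rfl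
  have dA1 : A1.IsHomogeneous 0 := h1.finSuccEquiv_coeff_isHomogeneous 2 0 rfl
  have dB1 : B1.IsHomogeneous 1 := h1.finSuccEquiv_coeff_isHomogeneous 1 1 rfl
  have dC1 : C1.IsHomogeneous 2 := h1.finSuccEquiv_coeff_isHomogeneous 0 2 rfl
  set r := (A * C1 - A1 * C') ^ 2 - (A * B1 - A1 * B) * (B * C1 - B1 * C') with hr
  have hrhom : r.IsHomogeneous 4 := by
    have e1 : (A * C1 - A1 * C').IsHomogeneous 2 := (dA.mul dC1).sub (dA1.mul dC)
    have e2 : (A * B1 - A1 * B).IsHomogeneous 1 := (dA.mul dB1).sub (dA1.mul dB)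
    have e3 : (B * C1 - B1 * C').IsHomogeneous 3 := (dB.mul dC1).sub (dB1.mul dC)
    exact (e1.pow 2).sub (e2.mul e3)
  have c2 : Finsupp.cons 2 (Finsupp.single (0 : Fin (m + 1)) 0) =
      Finsupp.single (0 : Fin (m + 2)) 2 := by
    ext i
    refine Fin.cases ?_ (fun j => ?_) i
    · simp
    · simp
  have c1 : Finsupp.cons 1 (Finsupp.single (0 : Fin (m + 1)) 1) =
      Finsupp.single (0 : Fin (m + 2)) 1 + Finsupp.single 1 1 := by
    ext i
    refine Fin.cases ?_ (fun j => ?_) i
    · simp
    · rw [Finsupp.cons_succ]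
      simp only [Finsupp.add_apply, Finsupp.single_apply]
      have : (0 : Fin (m + 2)) ≠ j.succ := (Fin.succ_ne_zero j).symm
      rw [if_neg this, zero_add]
      have h5 : ((1 : Fin (m + 2)) = j.succ) ↔ ((0 : Fin (m + 1)) = j) := by
        rw [← Fin.succ_zero_eq_one, Fin.succ_inj]
      simp only [h5]
  have c0 : Finsupp.cons 0 (Finsupp.single (0 : Fin (m + 1)) 2) =
      Finsupp.single (1 : Fin (m + 2)) 2 := by
    ext i
    refine Fin.cases ?_ (fun j => ?_) i
    · simp
    · rw [Finsupp.cons_succ]
      simp only [Finsupp.single_apply]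
      have h5 : ((1 : Fin (m + 2)) = j.succ) ↔ ((0 : Fin (m + 1)) = j) := by
        rw [← Fin.succ_zero_eq_one, Fin.succ_inj]
      simp only [h5]
  have eA : eval (Pi.single 0 1) A = coeffs f (0, Finsupp.single 0 2) := by
    rw [eval_single dA, hA, finSuccEquiv_coeff_coeff, c2]; rfl
  have eB : eval (Pi.single 0 1) B = coeffs f (0, Finsupp.single 0 1 + Finsupp.single 1 1) := by
    rw [eval_single dB, hB, finSuccEquiv_coeff_coeff, c1]; rfl
  have eC : eval (Pi.single 0 1) C' = coeffs f (0, Finsupp.single 1 2) := by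
    rw [eval_single dC, hC, finSuccEquiv_coeff_coeff, c0]; rfl
  have eA1 : eval (Pi.single 0 1) A1 = coeffs f (1, Finsupp.single 0 2) := by
    rw [eval_single dA1, hA1, finSuccEquiv_coeff_coeff, c2]; rfl
  have eB1 : eval (Pi.single 0 1) B1 = coeffs f (1, Finsupp.single 0 1 + Finsupp.single 1 1) := by
    rw [eval_single dB1, hB1, finSuccEquiv_coeff_coeff, c1]; rfl
  have eC1 : eval (Pi.single 0 1) C1 = coeffs f (1, Finsupp.single 1 2) := by
    rw [eval_single dC1, hC1, finSuccEquiv_coeff_coeff, c0]; rfl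
  have hev : eval (Pi.single 0 1) r = eval (coeffs f) (resP k m s) := by
    simp only [hr, resP, map_sub, map_mul, map_pow, eval_X, eA, eB, eC, eA1, eB1, eC1]
  have hr0 : r ≠ 0 := by
    intro h
    rw [h, map_zero] at hev
    exact hP hev.symm
  have hinj : Function.Injective (rename Fin.succ : MvPolynomial (Fin (m + 1)) k → _) :=
    rename_injective _ (Fin.succ_injective _)
  refine ⟨rename Fin.succ r, ?_, ?_, hrhom.rename_isHomogeneous, ?_⟩
  · have d0 := decomp h0
    have d1 := decomp h1
    rw [← hA, ← hB, ← hC] at d0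
    rw [← hA1, ← hB1, ← hC1] at d1
    have m0 : f 0 ∈ Ideal.span (Set.range f) := Ideal.subset_span ⟨0, rfl⟩
    have m1 : f 1 ∈ Ideal.span (Set.range f) := Ideal.subset_span ⟨1, rfl⟩
    have key : rename Fin.succ r =
        ((rename Fin.succ A * rename Fin.succ C1 - rename Fin.succ A1 * rename Fin.succ C') *
          rename Fin.succ A - (rename Fin.succ A * rename Fin.succ B1 -
            rename Fin.succ A1 * rename Fin.succ B) *
              (X 0 * rename Fin.succ A + rename Fin.succ B)) * f 1 +
        (-(rename Fin.succ A * rename Fin.succ C1 - rename Fin.succ A1 * rename Fin.succ C') *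
          rename Fin.succ A1 + (rename Fin.succ A * rename Fin.succ B1 -
            rename Fin.succ A1 * rename Fin.succ B) *
              (X 0 * rename Fin.succ A1 + rename Fin.succ B1)) * f 0 := by
      rw [d0, d1, hr]
      simp only [map_sub, map_mul, map_pow]
      ring
    rw [key]
    exact Ideal.add_mem _ (Ideal.mul_mem_left _ _ m1) (Ideal.mul_mem_left _ _ m0)
  · intro h
    exact hr0 (hinj (by rw [h, map_zero]))
  · intro u hu
    rw [support_rename_of_injective (Fin.succ_injective _), Finset.mem_image] at hu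
    obtain ⟨u', _, rfl⟩ := hu
    exact Finsupp.mapDomain_of_notMem_range _ _ (by simp)

end resultant

section main

variable {k : Type*} [Field k]

lemma not_lexsegment {m s : ℕ} {d : Fin (s + 2) → ℕ}
    {f : Fin (s + 2) → MvPolynomial (Fin (m + 2)) k}
    (hf : ∀ i, (f i).IsHomogeneous (d i)) (h0 : d 0 = 2) (h1 : d 1 = 2)
    (h4 : ∀ i : Fin (s + 2), 2 ≤ (i : ℕ) → 4 ≤ d i)
    (hq : 2 * (m + 2 + 1).choose 2 + (Finset.univ.filter (fun i => d i = 4)).card ≤
      (m + 2 + 2).choose 3 + 1)
    (hP : eval (coeffs f) (resP k m s) ≠ 0) :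
    ¬ IsLexsegment (initialIdeal (Ideal.span (Set.range f))) := by
  classical
  intro hlex
  have hf0 : (f 0).IsHomogeneous 2 := by have h := hf 0; rwa [h0] at h
  have hf1 : (f 1).IsHomogeneous 2 := by have h := hf 1; rwa [h1] at h
  obtain ⟨R, hRI, hR0, hRh, hRu⟩ := exists_resultant hf0 hf1 hP
  obtain ⟨u, hu⟩ := exists_isInitial hR0
  have hudeg : u.degree = 4 := degree_of_coeff hRh (mem_support_iff.1 hu.1)
  have hu0 : u 0 = 0 := hRu u hu.1
  have huL : monomial u (1 : k) ∈ initialIdeal (Ideal.span (Set.range f)) :=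
    Ideal.subset_span ⟨u, ⟨R, hRI, hu⟩, rfl⟩
  have hfne : f 0 ≠ 0 := by
    intro h
    apply hP
    have hz : ∀ x, coeffs f (0, x) = 0 := fun x => by
      show coeff x (f 0) = 0
      rw [h, coeff_zero]
    simp only [resP, map_sub, map_mul, map_pow, eval_X, hz]
    ring
  set X : Finset (Fin (m + 2) →₀ ℕ) :=
    insert u ((expos (m + 2) 3).image (fun a => a + Finsupp.single 0 1)) with hX
  have hXcard : X.card = (m + 2 + 2).choose 3 + 1 := by
    rw [hX, Finset.card_insert_of_notMem, Finset.card_image_of_injective, card_expos]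
    · rfl
    · exact fun a b h => add_right_cancel h
    · intro h
      rw [Finset.mem_image] at h
      obtain ⟨a, _, ha⟩ := h
      rw [← ha] at hu0
      simp at hu0
  have hXP : ∀ v ∈ X, v.degree = 4 ∧ ∃ g ∈ Ideal.span (Set.range f), IsInitial g v := by
    intro v hv
    rw [hX, Finset.mem_insert, Finset.mem_image] at hv
    rcases hv with rfl | ⟨a, ha, rfl⟩
    · exact ⟨hudeg, R, hRI, hu⟩
    · have hdeg : (a + Finsupp.single 0 1).degree = 4 := by
        rw [map_add, mem_expos.1 ha, Finsupp.degree_single]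
      refine ⟨hdeg, mem_initialIdeal (hlex u _ (hudeg.trans hdeg.symm) huL ⟨0, ?_, ?_⟩)⟩
      · intro j hj; exact absurd hj (Fin.not_lt_zero j)
      · rw [hu0]; simp
  have := card_le_of_initial hf h0 h1 h4 hfne X hXP
  omega

lemma resP_nonempty (m s : ℕ) {d : Fin (s + 2) → ℕ} (h0 : d 0 = 2) (h1 : d 1 = 2) :
    ∃ g : Fin (s + 2) → MvPolynomial (Fin (m + 2)) k,
      (∀ i, (g i).IsHomogeneous (d i)) ∧ eval (coeffs g) (resP k m s) ≠ 0 := by
  classical
  set g : Fin (s + 2) → MvPolynomial (Fin (m + 2)) k :=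
    fun i => if i = 0 then X 0 ^ 2 else if i = 1 then X 1 ^ 2 else 0 with hg
  have h10 : (1 : Fin (s + 2)) ≠ 0 := by
    intro h; have := congrArg Fin.val h; simp at this
  have g0 : g 0 = X 0 ^ 2 := by simp [hg]
  have g1 : g 1 = X 1 ^ 2 := by simp [hg, h10]
  refine ⟨g, fun i => ?_, ?_⟩
  · by_cases hi : i = 0
    · subst hi; rw [h0, g0]; exact (isHomogeneous_X k 0).pow 2
    · by_cases hi' : i = 1
      · subst hi'; rw [h1, g1]; exact (isHomogeneous_X k 1).pow 2
      · have : g i = 0 := by simp [hg, hi, hi']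
        rw [this]; exact isHomogeneous_zero _ _ _
  · have e0 : ∀ x, coeffs g (0, x) = if Finsupp.single 0 2 = x then 1 else 0 := fun x => by
      show coeff x (g 0) = _
      rw [g0, coeff_X_pow]
    have e1 : ∀ x, coeffs g (1, x) = if Finsupp.single 1 2 = x then 1 else 0 := fun x => by
      show coeff x (g 1) = _
      rw [g1, coeff_X_pow]
    have n10 : (1 : Fin (m + 2)) ≠ 0 := by
      intro h; have := congrArg Fin.val h; simp at this
    have f1 : (Finsupp.single (0 : Fin (m + 2)) 2 : Fin (m + 2) →₀ ℕ) ≠ Finsupp.single 1 2 := by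
      intro h; have := DFunLike.congr_fun h 0; simp at this
    have f2 : (Finsupp.single (0 : Fin (m + 2)) 2 : Fin (m + 2) →₀ ℕ) ≠
        Finsupp.single 0 1 + Finsupp.single 1 1 := by
      intro h; have := DFunLike.congr_fun h 0; simp at this
    have f3 : (Finsupp.single (1 : Fin (m + 2)) 2 : Fin (m + 2) →₀ ℕ) ≠
        Finsupp.single 0 1 + Finsupp.single 1 1 := by
      intro h; have := DFunLike.congr_fun h 0; simp at this
    simp only [resP, map_sub, map_mul, map_pow, eval_X, e0, e1, if_true, if_neg f1, if_neg f2,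
      if_neg f3, if_neg f1.symm]
    norm_num

/-- Two nonempty basic open sets of tuples of forms intersect. -/
lemma exists_common [Infinite k] {n s : ℕ} {d : Fin s → ℕ}
    {P Q : MvPolynomial (Fin s × (Fin n →₀ ℕ)) k}
    (hP : ∃ g : Fin s → MvPolynomial (Fin n) k,
      (∀ i, (g i).IsHomogeneous (d i)) ∧ eval (coeffs g) P ≠ 0)
    (hQ : ∃ g : Fin s → MvPolynomial (Fin n) k,
      (∀ i, (g i).IsHomogeneous (d i)) ∧ eval (coeffs g) Q ≠ 0) :
    ∃ g : Fin s → MvPolynomial (Fin n) k,
      (∀ i, (g i).IsHomogeneous (d i)) ∧ eval (coeffs g) P ≠ 0 ∧ eval (coeffs g) Q ≠ 0 := by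
  obtain ⟨g, hg, hgP⟩ := hP
  obtain ⟨h, hh, hhQ⟩ := hQ
  set c : Fin s × (Fin n →₀ ℕ) → Polynomial k := fun x =>
    Polynomial.C (coeffs g x) + Polynomial.X * Polynomial.C (coeffs h x - coeffs g x) with hc
  have hev : ∀ (t : k) (F : MvPolynomial (Fin s × (Fin n →₀ ℕ)) k),
      Polynomial.eval t (aeval c F) = eval (coeffs (fun i => g i + t • (h i - g i))) F := by
    intro t F
    induction F using MvPolynomial.induction_on with
    | C a => rw [aeval_C, eval_C, ← Polynomial.C_eq_algebraMap, Polynomial.eval_C]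
    | add p q hp hq => rw [map_add, map_add, Polynomial.eval_add, hp, hq]
    | mul_X p i hp =>
      rw [map_mul, map_mul, Polynomial.eval_mul, hp, aeval_X, eval_X]
      congr 1
      simp only [hc, Polynomial.eval_add, Polynomial.eval_mul, Polynomial.eval_C,
        Polynomial.eval_X, coeffs, coeff_add, coeff_smul, coeff_sub, smul_eq_mul]
  have hp0 : aeval c P ≠ 0 := by
    intro hz
    have h1 := hev 0 P
    rw [hz, Polynomial.eval_zero] at h1
    apply hgP
    rw [h1]
    congr 2
    funext i
    simp [coeffs]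
  have hq0 : aeval c Q ≠ 0 := by
    intro hz
    have h1 := hev 1 Q
    rw [hz, Polynomial.eval_zero] at h1
    apply hhQ
    rw [h1]
    congr 2
    funext i
    simp [coeffs]
  have hpq := mul_ne_zero hp0 hq0
  obtain ⟨t, ht⟩ : ∃ t : k, Polynomial.eval t (aeval c P * aeval c Q) ≠ 0 := by
    by_contra hcon
    push Not at hcon
    apply hpq
    apply Polynomial.funext
    intro t
    rw [hcon t, Polynomial.eval_zero]
  rw [Polynomial.eval_mul, hev, hev] at ht
  refine ⟨fun i => g i + t • (h i - g i), fun i => ?_, left_ne_zero_of_mul ht,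
    right_ne_zero_of_mul ht⟩
  have e1 : (t • (h i - g i)).IsHomogeneous (d i) := by
    rw [smul_eq_C_mul]
    have := (isHomogeneous_C (Fin n) t).mul ((hh i).sub (hg i))
    rwa [zero_add] at this
  exact (hg i).add e1

end main

universe u

open Classical in
/-- **Q1 of MP_48c274_ag is false for every infinite field and every `n ≥ 4`.**

(1) Let `k` be any infinite field, `n ≥ 4`, and consider `s + 2` forms of degrees `d_0 = d_1 = 2`
and `d_i ≥ 4` for `i ≥ 2`, where `2 (n+1 choose 2) + #{i : d_i = 4} ≤ (n+2 choose 3) + 1` (always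
true if no `d_i` is `4`; for `n = 4` it allows one `d_i = 4`).  Then the lex initial ideal of the
ideal generated by generic forms of these degrees is not lexsegment: it is not lexsegment for all
forms in a nonempty Zariski open set, it is not true that it is lexsegment for all forms in some
nonempty Zariski open set, and any ideal `L` which is the lex initial ideal for all forms in some
nonempty Zariski open set is not lexsegment.

(2) In particular (`n = 4`, three forms of degrees `2, 2, 4`) the assertion of Q1 fails. -/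
theorem result :
    (∀ (k : Type u) [Field k] [Infinite k] (n s : ℕ) (d : Fin (s + 2) → ℕ), 4 ≤ n →
      d 0 = 2 → d 1 = 2 → (∀ i : Fin (s + 2), 2 ≤ (i : ℕ) → 4 ≤ d i) →
      2 * (n + 1).choose 2 + (Finset.univ.filter (fun i => d i = 4)).card ≤
        (n + 2).choose 3 + 1 →
      Generically d (fun f : Fin (s + 2) → MvPolynomial (Fin n) k =>
        ¬ IsLexsegment (initialIdeal (Ideal.span (Set.range f)))) ∧
      ¬ Generically d (fun f : Fin (s + 2) → MvPolynomial (Fin n) k =>
        IsLexsegment (initialIdeal (Ideal.span (Set.range f)))) ∧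
      ∀ L : Ideal (MvPolynomial (Fin n) k),
        Generically d (fun f : Fin (s + 2) → MvPolynomial (Fin n) k =>
          initialIdeal (Ideal.span (Set.range f)) = L) → ¬ IsLexsegment L) ∧
    ¬ ∀ (k : Type u) [Field k] [Infinite k] (n s : ℕ) (d : Fin s → ℕ), 1 ≤ s → n ≤ s + 1 →
      (∀ i, 1 ≤ d i) →
      Generically d (fun f : Fin s → MvPolynomial (Fin n) k =>
        IsLexsegment (initialIdeal (Ideal.span (Set.range f)))) := by
  have main : ∀ (k : Type u) [Field k] [Infinite k] (n s : ℕ) (d : Fin (s + 2) → ℕ), 4 ≤ n →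
      d 0 = 2 → d 1 = 2 → (∀ i : Fin (s + 2), 2 ≤ (i : ℕ) → 4 ≤ d i) →
      2 * (n + 1).choose 2 + (Finset.univ.filter (fun i => d i = 4)).card ≤
        (n + 2).choose 3 + 1 →
      Generically d (fun f : Fin (s + 2) → MvPolynomial (Fin n) k =>
        ¬ IsLexsegment (initialIdeal (Ideal.span (Set.range f)))) ∧
      ¬ Generically d (fun f : Fin (s + 2) → MvPolynomial (Fin n) k =>
        IsLexsegment (initialIdeal (Ideal.span (Set.range f)))) ∧
      ∀ L : Ideal (MvPolynomial (Fin n) k),
        Generically d (fun f : Fin (s + 2) → MvPolynomial (Fin n) k =>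
          initialIdeal (Ideal.span (Set.range f)) = L) → ¬ IsLexsegment L := by
    intro k _ _ n s d hn h0 h1 h4 hq
    obtain ⟨m, rfl⟩ : ∃ m, n = m + 2 := ⟨n - 2, by omega⟩
    have hne := resP_nonempty (k := k) m s h0 h1
    refine ⟨⟨resP k m s, hne, fun f hf hP => not_lexsegment hf h0 h1 h4 hq hP⟩, ?_, ?_⟩
    · rintro ⟨Q, hQ, hQf⟩
      obtain ⟨g, hg, hgP, hgQ⟩ := exists_common hne hQ
      exact not_lexsegment hg h0 h1 h4 hq hgP (hQf g hg hgQ)
    · rintro L ⟨Q, hQ, hQf⟩
      obtain ⟨g, hg, hgP, hgQ⟩ := exists_common hne hQ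
      rw [← hQf g hg hgQ]
      exact not_lexsegment hg h0 h1 h4 hq hgP
  refine ⟨main, fun hall => ?_⟩
  obtain ⟨_, h, _⟩ := main (ULift.{u} ℚ) 4 1 ![2, 2, 4] le_rfl rfl rfl (by decide) (by decide)
  exact h (hall (ULift.{u} ℚ) 4 3 ![2, 2, 4] (by norm_num) (by norm_num) (by decide))

end Pool.Agent.Results.MP_48c274_ag.TwoQuadrics
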